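import Pool.Agent.Lib_helper74.Robin.TU

/-!
# Robin project, block CU: cutoffs
-/

namespace Pool.Agent.Lib_helper74.Robin

open MeasureTheory Set Metric Filter Topology
open scoped RealInnerProductSpace ContDiff
open Pool.Agent.Lib_helper13.Robin

noncomputable section

variable {d m : ℕ} (P : PD d m)

/-- the derivative of `smoothTransition` is bounded and vanishes outside `(0,1)` -/
theorem deriv_st_zero {x : ℝ} (h : x ∉ Ioo (0 : ℝ) 1) : deriv Real.smoothTransition x = 0 := by
  have hcont : Continuous (deriv Real.smoothTransition) :=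
    (Real.smoothTransition.contDiff (n := 1)).continuous_deriv le_rfl
  have h1 : ∀ y < 0, deriv Real.smoothTransition y = 0 := by
    intro y hy
    have : Real.smoothTransition =ᶠ[𝓝 y] fun _ => (0 : ℝ) := by
      filter_upwards [Iio_mem_nhds hy] with z hz
      exact Real.smoothTransition.zero_of_nonpos (le_of_lt hz)
    rw [this.deriv_eq, deriv_const]
  have h2 : ∀ y > 1, deriv Real.smoothTransition y = 0 := by
    intro y hy
    have : Real.smoothTransition =ᶠ[𝓝 y] fun _ => (1 : ℝ) := by
      filter_upwards [Ioi_mem_nhds hy] with z hz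
      exact Real.smoothTransition.one_of_one_le (le_of_lt hz)
    rw [this.deriv_eq, deriv_const]
  have hcl : IsClosed {y | deriv Real.smoothTransition y = 0} :=
    isClosed_eq hcont continuous_const
  rw [mem_Ioo, not_and_or, not_lt, not_lt] at h
  rcases h with h | h
  · have h3 : Iio (0 : ℝ) ⊆ {y | deriv Real.smoothTransition y = 0} := fun y hy => h1 y hy
    have h4 := closure_minimal h3 hcl
    rw [closure_Iio] at h4
    exact h4 h
  · have h3 : Ioi (1 : ℝ) ⊆ {y | deriv Real.smoothTransition y = 0} := fun y hy => h2 y hy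
    have h4 := closure_minimal h3 hcl
    rw [closure_Ioi] at h4
    exact h4 h

theorem deriv_st_bdd : ∃ C > 0, ∀ x, |deriv Real.smoothTransition x| ≤ C := by
  have hcont : Continuous (deriv Real.smoothTransition) :=
    (Real.smoothTransition.contDiff (n := 1)).continuous_deriv le_rfl
  obtain ⟨C, hC⟩ := (isCompact_Icc (a := (0 : ℝ)) (b := 1)).exists_bound_of_continuousOn
    hcont.continuousOn
  refine ⟨|C| + 1, by positivity, fun x => ?_⟩
  by_cases h : x ∈ Ioo (0 : ℝ) 1
  · have := hC x (Ioo_subset_Icc_self h)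
    rw [Real.norm_eq_abs] at this
    linarith [le_abs_self C]
  · rw [deriv_st_zero h, abs_zero]; positivity

theorem norm_gradient (f : E d → ℝ) (x : E d) : ‖gradient f x‖ = ‖fderiv ℝ f x‖ := by
  unfold gradient
  rw [LinearIsometryEquiv.norm_map]

/-- the square of the distance to the stratum -/
theorem rho_sq_fderiv (q x : E d) : ∃ f' : E d →L[ℝ] ℝ,
    HasFDerivAt (fun x => P.rho q x ^ 2) f' x ∧ ‖f'‖ ≤ 2 * P.rho q x := by
  have h1 : HasFDerivAt (fun x => (P.N q).starProjection (x - q)) ((P.N q).starProjection) x := by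
    have := ((P.N q).starProjection.hasFDerivAt (x := x - q)).comp x ((hasFDerivAt_id x).sub_const q)
    rw [ContinuousLinearMap.comp_id] at this
    exact this
  have h2 := h1.norm_sq
  refine ⟨_, h2, ?_⟩
  refine ContinuousLinearMap.opNorm_le_bound _ (by unfold PD.rho; positivity) fun v => ?_
  have h3 : ‖(P.N q).starProjection v‖ ≤ ‖v‖ := by
    have := (P.N q).starProjection.le_opNorm v
    have h4 := (P.N q).starProjection_norm_le
    nlinarith [norm_nonneg v]
  have h4 : |⟪(P.N q).starProjection (x - q), (P.N q).starProjection v⟫| ≤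
      P.rho q x * ‖v‖ := by
    refine (abs_real_inner_le_norm _ _).trans ?_
    exact mul_le_mul_of_nonneg_left h3 (norm_nonneg _)
  have h5 : (2 • ((innerSL ℝ) ((P.N q).starProjection (x - q))).comp (P.N q).starProjection) v =
      2 * ⟪(P.N q).starProjection (x - q), (P.N q).starProjection v⟫ := by
    simp [inner_sub_left]
  rw [h5, Real.norm_eq_abs, abs_mul, abs_two]
  linarith

theorem rho_sq_contDiff (q : E d) : ContDiff ℝ ∞ (fun x => P.rho q x ^ 2) := by
  unfold PD.rho
  have h1 : ContDiff ℝ ∞ (fun x => (P.N q).starProjection (x - q)) :=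
    (P.N q).starProjection.contDiff.comp (contDiff_id.sub contDiff_const)
  exact h1.norm_sq ℝ

theorem rho_nonneg (q x : E d) : 0 ≤ P.rho q x := norm_nonneg _

/-- **CU.** cutoffs -/
theorem cutoff (q : E d) : ∃ C > 0, ∀ t > 0, ∃ χ : E d → ℝ, ContDiff ℝ ∞ χ ∧
    (∀ x, 0 ≤ χ x ∧ χ x ≤ 1) ∧ (∀ x, P.rho q x ≤ t → χ x = 0) ∧
    (∀ x, 2 * t ≤ P.rho q x → χ x = 1) ∧ ∀ x, ‖gradient χ x‖ ≤ C / t := by
  obtain ⟨C, hC, hCb⟩ := deriv_st_bdd
  refine ⟨4 * C, by positivity, fun t ht => ?_⟩
  refine ⟨fun x => Real.smoothTransition (P.rho q x ^ 2 / t ^ 2 - 1), ?_, ?_, ?_, ?_, ?_⟩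
  · exact Real.smoothTransition.contDiff.comp
      (((rho_sq_contDiff P q).div_const _).sub contDiff_const)
  · exact fun x => ⟨Real.smoothTransition.nonneg _, Real.smoothTransition.le_one _⟩
  · intro x hx
    apply Real.smoothTransition.zero_of_nonpos
    have := rho_nonneg P q x
    rw [sub_nonpos, div_le_one (by positivity)]
    gcongr
  · intro x hx
    apply Real.smoothTransition.one_of_one_le
    have := rho_nonneg P q x
    rw [le_sub_iff_add_le, le_div_iff₀ (by positivity)]
    nlinarith
  · intro x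
    rw [norm_gradient]
    obtain ⟨f', h1, h2⟩ := rho_sq_fderiv P q x
    have h3 : HasFDerivAt (fun x => P.rho q x ^ 2 / t ^ 2 - 1) ((t ^ 2)⁻¹ • f') x := by
      have := (h1.const_mul (t ^ 2)⁻¹).sub_const 1
      refine this.congr_of_eventuallyEq (Eventually.of_forall fun y => ?_)
      simp only [div_eq_inv_mul]
    have h4 : HasDerivAt Real.smoothTransition
        (deriv Real.smoothTransition (P.rho q x ^ 2 / t ^ 2 - 1)) (P.rho q x ^ 2 / t ^ 2 - 1) :=
      ((Real.smoothTransition.contDiff (n := 1)).differentiable (by norm_num)).differentiableAt.hasDerivAt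
    have h5 := h4.comp_hasFDerivAt x h3
    have h6 : fderiv ℝ (fun x => Real.smoothTransition (P.rho q x ^ 2 / t ^ 2 - 1)) x =
      deriv Real.smoothTransition (P.rho q x ^ 2 / t ^ 2 - 1) • (t ^ 2)⁻¹ • f' := h5.fderiv
    rw [h6, norm_smul, norm_smul, Real.norm_eq_abs, Real.norm_eq_abs,
      abs_of_pos (show (0 : ℝ) < (t ^ 2)⁻¹ by positivity)]
    by_cases h : P.rho q x ^ 2 / t ^ 2 - 1 ∈ Ioo (0 : ℝ) 1
    · have h7 : P.rho q x ≤ 2 * t := by
        have h8 : P.rho q x ^ 2 / t ^ 2 < 2 := by linarith [h.2]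
        rw [div_lt_iff₀ (by positivity)] at h8
        apply le_of_sq_le_sq _ (by positivity)
        nlinarith [sq_nonneg t]
      calc |deriv Real.smoothTransition (P.rho q x ^ 2 / t ^ 2 - 1)| * ((t ^ 2)⁻¹ * ‖f'‖)
          ≤ C * ((t ^ 2)⁻¹ * (2 * (2 * t))) := by
            gcongr
            · exact hCb _
            · linarith
        _ = 4 * C / t := by field_simp; norm_num
    · rw [deriv_st_zero h, abs_zero, zero_mul]
      positivity

/-- gradient of a cutoff vanishes off the transition region -/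
theorem grad_zero_of_ext {χ : E d → ℝ} (hb : ∀ x, 0 ≤ χ x ∧ χ x ≤ 1) {x : E d}
    (hx : χ x = 0 ∨ χ x = 1) : gradient χ x = 0 := by
  have h0 : fderiv ℝ χ x = 0 := by
    rcases hx with hx | hx
    · apply IsLocalMin.fderiv_eq_zero
      refine Eventually.of_forall fun y => ?_
      rw [hx]; exact (hb y).1
    · apply IsLocalMax.fderiv_eq_zero
      refine Eventually.of_forall fun y => ?_
      rw [hx]; exact (hb y).2
  have := norm_gradient χ x
  rw [h0, norm_zero, norm_eq_zero] at this
  exact this

/-- **CU.** logarithmic cutoffs -/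
theorem logcut {q : E d} (hr : 2 ≤ P.rk q) (R : ℝ) : ∃ χ : ℕ → E d → ℝ,
    (∀ n, ContDiff ℝ ∞ (χ n) ∧ (∀ x, 0 ≤ χ n x ∧ χ n x ≤ 1) ∧
      ∃ t > 0, ∀ x, P.rho q x < t → χ n x = 0) ∧
    (∀ x, P.rho q x ≠ 0 → Tendsto (fun n => χ n x) atTop (𝓝 1)) ∧
    Tendsto (fun n => ∫ x in ball q R, ‖gradient (χ n) x‖ ^ 2) atTop (𝓝 0) := by
  obtain ⟨C, hC, hcut⟩ := cutoff P q
  choose c hc1 hc2 hc3 hc4 hc5 using hcut
  obtain ⟨C2, hC2, hvol⟩ := tube_vol P (q := q) R
  set t : ℕ → ℝ := fun j => (1 / 4 : ℝ) ^ (j + 1) with htdef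
  have ht : ∀ j, 0 < t j := fun j => by positivity
  set c' : ℕ → E d → ℝ := fun j => c (t j) (ht j) with hc'
  -- the j-th gradient
  have hgz : ∀ j x, P.rho q x ≤ t j ∨ 2 * t j ≤ P.rho q x → gradient (c' j) x = 0 := by
    intro j x hx
    apply grad_zero_of_ext (hc2 _ _)
    rcases hx with hx | hx
    · exact Or.inl (hc3 _ _ x hx)
    · exact Or.inr (hc4 _ _ x hx)
  set χ : ℕ → E d → ℝ := fun n x => ((n : ℝ) + 1)⁻¹ * ∑ j ∈ Finset.range (n + 1), c' (n + j) x
    with hχ
  have hcard : ∀ n : ℕ, ((n : ℝ) + 1)⁻¹ * ∑ j ∈ Finset.range (n + 1), (1 : ℝ) = 1 := by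
    intro n
    rw [Finset.sum_const, Finset.card_range, nsmul_eq_mul, mul_one]
    push_cast
    exact inv_mul_cancel₀ (by positivity)
  have htanti : ∀ i j, i ≤ j → t j ≤ t i := fun i j hij => by
    rw [htdef]
    exact pow_le_pow_of_le_one (by norm_num) (by norm_num) (by omega)
  have htlt : ∀ i j, i < j → 2 * t j < t i := fun i j hij => by
    have h1 : t j ≤ t (i + 1) := htanti _ _ hij
    have h2 : t (i + 1) = t i / 4 := by
      simp only [htdef]; rw [pow_succ _ (i + 1)]; ring
    have := ht i
    linarith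
  refine ⟨χ, fun n => ⟨?_, ?_, ?_⟩, ?_, ?_⟩
  · refine contDiff_const.mul (ContDiff.sum fun j _ => hc1 _ _)
  · intro x
    constructor
    · exact mul_nonneg (by positivity) (Finset.sum_nonneg fun j _ => (hc2 _ _ x).1)
    · rw [← hcard n]
      exact mul_le_mul_of_nonneg_left (Finset.sum_le_sum fun j _ => (hc2 _ _ x).2) (by positivity)
  · refine ⟨t (2 * n), ht _, fun x hx => ?_⟩
    simp only [hχ]
    rw [Finset.sum_eq_zero, mul_zero]
    intro j hj
    rw [Finset.mem_range] at hj
    apply hc3
    exact hx.le.trans (htanti _ _ (by omega))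
  · intro x hx
    have hpos : 0 < P.rho q x := lt_of_le_of_ne (rho_nonneg P q x) (Ne.symm hx)
    have hlim : Tendsto (fun n => 2 * t n) atTop (𝓝 0) := by
      have : Tendsto (fun n : ℕ => 2 * (1 / 4 : ℝ) ^ (n + 1)) atTop (𝓝 (2 * 0)) :=
        ((tendsto_pow_atTop_nhds_zero_of_lt_one (by norm_num) (by norm_num)).comp
          (tendsto_add_atTop_nat 1)).const_mul 2
      rw [mul_zero] at this
      exact this
    have hev := hlim.eventually (gt_mem_nhds hpos)
    refine tendsto_const_nhds.congr' ?_
    filter_upwards [hev] with n hn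
    rw [← hcard n]
    simp only [hχ]
    congr 1
    apply Finset.sum_congr rfl
    intro j hj
    symm
    apply hc4
    have := htanti n (n + j) (by omega)
    linarith
  · -- the energy
    have hgrad : ∀ n x, gradient (χ n) x =
        ((n : ℝ) + 1)⁻¹ • ∑ j ∈ Finset.range (n + 1), gradient (c' (n + j)) x := by
      intro n x
      have hd : ∀ j, HasGradientAt (c' j) (gradient (c' j) x) x := fun j =>
        ((hc1 _ _).differentiable (by simp)).differentiableAt.hasGradientAt
      apply HasGradientAt.gradient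
      rw [hasGradientAt_iff_hasFDerivAt]
      have h1 : HasFDerivAt (fun x => ∑ j ∈ Finset.range (n + 1), c' (n + j) x)
          (∑ j ∈ Finset.range (n + 1), (InnerProductSpace.toDual ℝ (E d)) (gradient (c' (n + j)) x)) x :=
        HasFDerivAt.fun_sum fun j _ => (hd (n + j)).hasFDerivAt
      have h2 := h1.const_mul ((n : ℝ) + 1)⁻¹
      have h3 : (InnerProductSpace.toDual ℝ (E d)) (((n : ℝ) + 1)⁻¹ •
          ∑ j ∈ Finset.range (n + 1), gradient (c' (n + j)) x) = ((n : ℝ) + 1)⁻¹ •
          ∑ j ∈ Finset.range (n + 1), (InnerProductSpace.toDual ℝ (E d)) (gradient (c' (n + j)) x) := by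
        simp [map_sum]
      rw [h3]
      exact h2
    have hsq : ∀ n x, ‖∑ j ∈ Finset.range (n + 1), gradient (c' (n + j)) x‖ ^ 2 =
        ∑ j ∈ Finset.range (n + 1), ‖gradient (c' (n + j)) x‖ ^ 2 := by
      intro n x
      rw [← real_inner_self_eq_norm_sq, sum_inner]
      apply Finset.sum_congr rfl
      intro i hi
      rw [inner_sum, Finset.sum_eq_single i]
      · rw [real_inner_self_eq_norm_sq]
      · intro j _ hji
        -- one of the two vanishes
        rcases lt_or_gt_of_ne hji with h | h
        · -- j < i : t (n+i) is smaller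
          have h1 := htlt (n + j) (n + i) (by omega)
          by_cases h2 : P.rho q x ≤ t (n + j)
          · rw [hgz _ x (Or.inl h2), inner_zero_right]
          · rw [hgz (n + i) x (Or.inr (by linarith)), inner_zero_left]
        · have h1 := htlt (n + i) (n + j) (by omega)
          by_cases h2 : P.rho q x ≤ t (n + i)
          · rw [hgz _ x (Or.inl h2), inner_zero_left]
          · rw [hgz (n + j) x (Or.inr (by linarith)), inner_zero_right]
      · intro h; exact absurd hi h
    have hpt : ∀ j x, ‖gradient (c' j) x‖ ^ 2 ≤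
        {x | P.rho q x < 2 * t j}.indicator (fun _ => (C / t j) ^ 2) x := by
      intro j x
      by_cases h : P.rho q x < 2 * t j
      · rw [indicator_of_mem (show x ∈ {x | P.rho q x < 2 * t j} from h)]
        have := hc5 (t j) (ht j) x
        gcongr
      · rw [indicator_of_notMem (show x ∉ {x | P.rho q x < 2 * t j} from h),
          hgz j x (Or.inr (not_lt.1 h)), norm_zero, zero_pow two_ne_zero]
    have hms : ∀ j, MeasurableSet {x | P.rho q x < 2 * t j} := by
      intro j
      apply IsOpen.measurableSet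
      apply isOpen_lt _ continuous_const
      unfold PD.rho; fun_prop
    have hcontg : ∀ j, Continuous (fun x => ‖gradient (c' j) x‖ ^ 2) := by
      intro j
      have h1 : Continuous (fderiv ℝ (c' j)) := (hc1 (t j) (ht j)).continuous_fderiv (by simp)
      simp only [norm_gradient]
      fun_prop
    have hfin : volume (ball q R) ≠ ⊤ := measure_ball_lt_top.ne
    have hintg : ∀ j, IntegrableOn (fun x => ‖gradient (c' j) x‖ ^ 2) (ball q R) := by
      intro j
      exact ((hcontg j).continuousOn.integrableOn_compact (isCompact_closedBall q R)).mono_set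
        ball_subset_closedBall
    have hint : ∀ j, ∫ x in ball q R, ‖gradient (c' j) x‖ ^ 2 ≤ 4 * C ^ 2 * C2 := by
      intro j
      have h1 : IntegrableOn ({x | P.rho q x < 2 * t j}.indicator (fun _ => (C / t j) ^ 2))
          (ball q R) := by
        apply Integrable.indicator _ (hms j)
        exact integrableOn_const hfin
      calc ∫ x in ball q R, ‖gradient (c' j) x‖ ^ 2
          ≤ ∫ x in ball q R, {x | P.rho q x < 2 * t j}.indicator (fun _ => (C / t j) ^ 2) x :=
            integral_mono (hintg j) h1 (hpt j)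
        _ = (volume (ball q R ∩ {x | P.rho q x < 2 * t j})).toReal * (C / t j) ^ 2 := by
            rw [integral_indicator (hms j), Measure.restrict_restrict (hms j), integral_const,
              smul_eq_mul, measureReal_restrict_apply_univ, inter_comm]
            rfl
        _ ≤ (C2 * (2 * t j) ^ P.rk q) * (C / t j) ^ 2 := by
            gcongr
            exact hvol _ (by have := ht j; positivity)
        _ ≤ (C2 * (2 * t j) ^ 2) * (C / t j) ^ 2 := by
            have h2 : 2 * t j ≤ 1 := by
              have h4 : t j ≤ t 0 := htanti 0 j (by omega)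
              have h3 : t 0 = 1 / 4 := by simp [htdef]
              have h5 : t j ≤ 1 / 4 := h4.trans h3.le
              linarith
            have h3 : 0 ≤ 2 * t j := by have := ht j; positivity
            gcongr ?_ * _
            gcongr C2 * ?_
            exact pow_le_pow_of_le_one h3 h2 hr
        _ = 4 * C ^ 2 * C2 := by
            have := (ht j).ne'
            field_simp
            norm_num
    have hbound : ∀ n : ℕ, ∫ x in ball q R, ‖gradient (χ n) x‖ ^ 2 ≤
        (4 * C ^ 2 * C2) * ((n : ℝ) + 1)⁻¹ := by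
      intro n
      have h1 : ∀ x, ‖gradient (χ n) x‖ ^ 2 = (((n : ℝ) + 1)⁻¹) ^ 2 *
          ∑ j ∈ Finset.range (n + 1), ‖gradient (c' (n + j)) x‖ ^ 2 := by
        intro x
        rw [hgrad, norm_smul, mul_pow, hsq, Real.norm_eq_abs, sq_abs]
      simp only [h1]
      rw [integral_const_mul, integral_finsetSum _ fun j _ => hintg (n + j)]
      calc (((n : ℝ) + 1)⁻¹) ^ 2 * ∑ j ∈ Finset.range (n + 1),
            ∫ x in ball q R, ‖gradient (c' (n + j)) x‖ ^ 2
          ≤ (((n : ℝ) + 1)⁻¹) ^ 2 * ∑ j ∈ Finset.range (n + 1), (4 * C ^ 2 * C2) := by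
            gcongr with j hj
            exact hint (n + j)
        _ = (4 * C ^ 2 * C2) * ((n : ℝ) + 1)⁻¹ := by
            rw [Finset.sum_const, Finset.card_range, nsmul_eq_mul]
            push_cast
            field_simp
    have hz : Tendsto (fun n : ℕ => (4 * C ^ 2 * C2) * ((n : ℝ) + 1)⁻¹) atTop (𝓝 0) := by
      have h1 : Tendsto (fun n : ℕ => ((n : ℝ) + 1)⁻¹) atTop (𝓝 0) := by
        simpa [one_div] using tendsto_one_div_add_atTop_nhds_zero_nat (𝕜 := ℝ)
      simpa using h1.const_mul (4 * C ^ 2 * C2)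
    exact squeeze_zero (fun n => by positivity) hbound hz

end

end Pool.Agent.Lib_helper74.Robin
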