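import Pool.Agent.Lib_helper74.Robin.TU

/-!
# Robin project, block TE: tube estimate from monotonicity along the stratum
-/

namespace Pool.Agent.Lib_helper74.Robin

open MeasureTheory Set Metric Filter Topology
open scoped RealInnerProductSpace ContDiff
open Pool.Agent.Lib_helper13.Robin

noncomputable section

variable {d m : ℕ} (P : PD d m)

theorem th_nonneg (z : E d) : 0 ≤ th z := le_max_right _ _

theorem th_le_one (z : E d) : th z ≤ 1 := by
  unfold th
  apply max_le _ zero_le_one
  nlinarith [sq_nonneg ‖z‖]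

theorem th_cont : Continuous (th : E d → ℝ) := by
  unfold th; fun_prop

theorem th_zero {z : E d} (h : 1 ≤ ‖z‖) : th z = 0 := by
  unfold th
  apply max_eq_right
  nlinarith

/-- **TE.** tube estimate from monotonicity along the stratum -/
theorem tube_est {q : E d} {R : ℝ} (hC : P.Con q R) (Q : E d → ℝ) (hQ0 : ∀ x, 0 ≤ Q x)
    (hQ : ∀ K ⊆ ball q R, IsCompact K → IntegrableOn Q (P.Om ∩ K))
    (hmono : ∀ s ∈ (P.N q)ᗮ, ‖s‖ < R → ∀ t1 t2, 0 < t1 → t1 ≤ t2 → t2 < R - ‖s‖ →
      mm P Q (q + s) t1 ≤ mm P Q (q + s) t2)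
    {r : ℝ} (hr : r < R) :
    ∃ C > 0, ∀ t > 0, ∫ x in P.Om ∩ (ball q r ∩ {x | P.rho q x < t}), Q x ≤ C * t ^ P.rk q := by
  classical
  rcases le_or_gt r 0 with hr0 | hr0
  · refine ⟨1, one_pos, fun t ht => ?_⟩
    rw [ball_eq_empty.2 hr0]
    simp only [empty_inter, inter_empty, Measure.restrict_empty, integral_zero_measure]
    positivity
  set L := (P.N q)ᗮ with hL
  set D := Module.finrank ℝ L with hD
  have hDk : P.rk q + D = d := by
    have := (P.N q).finrank_add_finrank_orthogonal
    rw [finrank_euclideanSpace_fin] at this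
    exact this
  set K : Set (E d) := closedBall q (r + 3 / 4 * (R - r)) with hK
  have hKs : K ⊆ ball q R := closedBall_subset_ball (by linarith)
  have hKc : IsCompact K := isCompact_closedBall _ _
  have hKm : MeasurableSet K := hKc.measurableSet
  set μ := volume.restrict (P.Om ∩ K) with hμ
  have hμfin : IsFiniteMeasure μ := by
    constructor
    rw [hμ, Measure.restrict_apply_univ]
    exact lt_of_le_of_lt (measure_mono inter_subset_right) hKc.measure_lt_top
  have hQi : Integrable Q μ := hQ K hKs hKc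
  set M := ∫ x, Q x ∂μ with hM
  have hM0 : 0 ≤ M := integral_nonneg hQ0
  set t2 := (R - r) / 2 with ht2
  have ht2pos : 0 < t2 := by rw [ht2]; linarith
  set t0 := (R - r) / 8 with ht0
  have ht0pos : 0 < t0 := by rw [ht0]; linarith
  set vB := (volume (ball (0 : L) R)).toReal with hvB
  set v1 := (volume (ball (0 : L) 1)).toReal with hv1
  have hv1pos : 0 < v1 := by
    rw [hv1]
    exact ENNReal.toReal_pos (measure_ball_pos _ _ one_pos).ne' measure_ball_lt_top.ne
  have hvB0 : 0 ≤ vB := ENNReal.toReal_nonneg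
  -- tube integral is at most M
  have htube : ∀ t, P.Om ∩ (ball q r ∩ {x | P.rho q x < t}) ⊆ P.Om ∩ K := by
    intro t x hx
    refine ⟨hx.1, ?_⟩
    have := hx.2.1
    rw [mem_ball] at this
    rw [hK, mem_closedBall]; linarith
  have htm : ∀ t, MeasurableSet (P.Om ∩ (ball q r ∩ {x | P.rho q x < t})) := by
    intro t
    refine P.measurableSet_Om.inter (measurableSet_ball.inter ?_)
    apply IsOpen.measurableSet
    apply isOpen_lt _ continuous_const
    unfold PD.rho; fun_prop
  have htM : ∀ t, ∫ x in P.Om ∩ (ball q r ∩ {x | P.rho q x < t}), Q x ≤ M := by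
    intro t
    exact setIntegral_mono_set (hQ K hKs hKc) (Eventually.of_forall hQ0)
      (LE.le.eventuallyLE (htube t))
  set C1 := (4 / 3) * (4 ^ d * (t2 ^ d)⁻¹ * M * vB) / v1 with hC1
  have hC10 : 0 ≤ C1 := by rw [hC1]; positivity
  refine ⟨C1 + M / t0 ^ P.rk q + 1, by positivity, fun t ht => ?_⟩
  have htk : 0 < t ^ P.rk q := by positivity
  rcases le_or_gt t0 t with hlarge | hsmall
  · -- large t
    have h1 : t0 ^ P.rk q ≤ t ^ P.rk q := by gcongr
    have h2 : M ≤ M / t0 ^ P.rk q * t ^ P.rk q := by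
      rw [div_mul_eq_mul_div, le_div_iff₀ (by positivity)]
      exact mul_le_mul_of_nonneg_left h1 hM0
    have h3 := htM t
    have h4 : 0 ≤ (C1 + 1) * t ^ P.rk q := by positivity
    nlinarith
  -- small t
  set ν := (volume : Measure L).restrict (ball 0 (r + t)) with hν
  have hrt : r + t ≤ R := by rw [ht0] at hsmall; linarith
  have hνfin : IsFiniteMeasure ν := by
    constructor
    rw [hν, Measure.restrict_apply_univ]
    exact measure_ball_lt_top
  set F : E d → L → ℝ := fun x s => Q x * th ((4 * t)⁻¹ • (x - (q + (s : E d)))) with hF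
  have hFc : Continuous (fun p : E d × L => th ((4 * t)⁻¹ • (p.1 - (q + (p.2 : E d))))) := by
    apply th_cont.comp
    fun_prop
  have hFi : Integrable (fun p : E d × L => F p.1 p.2) (μ.prod ν) := by
    have h1 : Integrable (fun p : E d × L => Q p.1 * (1 : ℝ)) (μ.prod ν) :=
      hQi.mul_prod (integrable_const (μ := ν) (1 : ℝ))
    simp only [mul_one] at h1
    have h2 := h1.bdd_mul (c := 1) hFc.aestronglyMeasurable
      (Eventually.of_forall fun p => by
        rw [Real.norm_eq_abs, abs_of_nonneg (th_nonneg _)]; exact th_le_one _)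
    refine h2.congr (Eventually.of_forall fun p => ?_)
    simp only [hF, mul_comm]
  have hswap : ∫ x, (∫ s, F x s ∂ν) ∂μ = ∫ s, (∫ x, F x s ∂μ) ∂ν :=
    integral_integral_swap hFi
  -- upper bound
  have hup : ∀ s ∈ ball (0 : L) (r + t), ∫ x, F x s ∂μ ≤ (4 * t) ^ d * ((t2 ^ d)⁻¹ * M) := by
    intro s hs
    have hs' : ‖s‖ < r + t := by simpa using hs
    have hs2 : ‖(s : E d)‖ < r + t := hs'
    have hm := hmono s s.2 (by linarith) (4 * t) t2 (by linarith)
      (by rw [ht2]; rw [ht0] at hsmall; linarith) (by rw [ht2]; rw [ht0] at hsmall; linarith)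
    unfold mm at hm
    -- restrict to K
    have hres : ∀ τ, 0 < τ → τ ≤ t2 → ∫ x in P.Om, Q x * th (τ⁻¹ • (x - (q + (s : E d)))) =
        ∫ x, Q x * th (τ⁻¹ • (x - (q + (s : E d)))) ∂μ := by
      intro τ h0 h1
      rw [hμ, setIntegral_eq_of_subset_of_forall_sdiff_eq_zero P.measurableSet_Om
        inter_subset_left]
      intro x hx
      have hx2 : x ∉ K := fun h => hx.2 ⟨hx.1, h⟩
      rw [hK, mem_closedBall, not_le, dist_eq_norm] at hx2
      have hx3 : ‖x - q‖ ≤ ‖x - (q + (s : E d))‖ + ‖(s : E d)‖ := by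
        calc ‖x - q‖ = ‖(x - (q + (s : E d))) + s‖ := by congr 1; abel
          _ ≤ _ := norm_add_le _ _
      rw [th_zero, mul_zero]
      rw [norm_smul, norm_inv, Real.norm_eq_abs, abs_of_pos h0, inv_mul_eq_div, one_le_div h0]
      rw [ht2] at h1; rw [ht0] at hsmall
      linarith
    rw [hres _ (by linarith) (by rw [ht2]; rw [ht0] at hsmall; linarith), hres _ ht2pos le_rfl] at hm
    have h5 : ∫ x, Q x * th (t2⁻¹ • (x - (q + (s : E d)))) ∂μ ≤ M := by
      rw [hM]
      apply integral_mono_of_nonneg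
      · exact Eventually.of_forall fun x => mul_nonneg (hQ0 x) (th_nonneg _)
      · exact hQi
      · exact Eventually.of_forall fun x => mul_le_of_le_one_right (hQ0 x) (th_le_one _)
    have h6 : ((4 * t) ^ d)⁻¹ * ∫ x, F x s ∂μ ≤ (t2 ^ d)⁻¹ * M :=
      hm.trans (mul_le_mul_of_nonneg_left h5 (by positivity))
    have h7 : (0 : ℝ) < (4 * t) ^ d := by positivity
    calc ∫ x, F x s ∂μ = (4 * t) ^ d * (((4 * t) ^ d)⁻¹ * ∫ x, F x s ∂μ) := by
          rw [← mul_assoc, mul_inv_cancel₀ h7.ne', one_mul]
      _ ≤ _ := mul_le_mul_of_nonneg_left h6 h7.le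
  have hUP : ∫ s, (∫ x, F x s ∂μ) ∂ν ≤ (4 * t) ^ d * ((t2 ^ d)⁻¹ * M) * vB := by
    calc ∫ s, (∫ x, F x s ∂μ) ∂ν ≤ ∫ s, (4 * t) ^ d * ((t2 ^ d)⁻¹ * M) ∂ν := by
          apply setIntegral_mono_on
          · exact hFi.integral_prod_right
          · exact integrable_const _
          · exact measurableSet_ball
          · exact hup
      _ = (4 * t) ^ d * ((t2 ^ d)⁻¹ * M) * (volume (ball (0 : L) (r + t))).toReal := by
          rw [integral_const, smul_eq_mul, hν, measureReal_restrict_apply_univ, mul_comm]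
          rfl
      _ ≤ _ := by
          apply mul_le_mul_of_nonneg_left _ (by positivity)
          exact ENNReal.toReal_mono measure_ball_lt_top.ne (measure_mono (ball_subset_ball hrt))
  -- lower bound
  have hlow : ∀ x ∈ ball q r ∩ {x | P.rho q x < t}, 3 / 4 * (t ^ D * v1) * Q x ≤ ∫ s, F x s ∂ν := by
    rintro x ⟨hx1, hx2⟩
    rw [mem_ball, dist_eq_norm] at hx1
    change P.rho q x < t at hx2
    set sx : L := L.orthogonalProjectionOnto (x - q) with hsx
    have hsxn : ‖sx‖ < r := lt_of_le_of_lt (L.norm_orthogonalProjectionOnto_apply_le _) hx1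
    have hdec : x - q = (P.N q).starProjection (x - q) + (sx : E d) := by
      have := (P.N q).starProjection_add_starProjection_orthogonal (x - q)
      exact this.symm
    have hsub : ball sx t ⊆ ball (0 : L) (r + t) := by
      apply ball_subset_ball'
      rw [dist_zero_right]; linarith
    have hin : ∀ s ∈ ball sx t, 3 / 4 * Q x ≤ F x s := by
      intro s hs
      rw [mem_ball, dist_eq_norm] at hs
      have h1 : x - (q + (s : E d)) = (P.N q).starProjection (x - q) + ((sx - s : L) : E d) := by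
        rw [Submodule.coe_sub, ← add_sub_assoc, ← hdec]; abel
      have h2 : ‖x - (q + (s : E d))‖ ^ 2 = P.rho q x ^ 2 + ‖sx - s‖ ^ 2 := by
        rw [h1]
        have h3 := norm_add_sq_real ((P.N q).starProjection (x - q)) ((sx - s : L) : E d)
        have h4 : ⟪(P.N q).starProjection (x - q), ((sx - s : L) : E d)⟫ = (0 : ℝ) :=
          (sx - s).2 _ ((P.N q).starProjection_apply_mem _)
        rw [h4, mul_zero, add_zero] at h3
        exact h3
      have h5 : ‖sx - s‖ < t := by rw [norm_sub_rev]; exact hs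
      have h6 : P.rho q x ^ 2 ≤ t ^ 2 := by
        have : 0 ≤ P.rho q x := norm_nonneg _
        gcongr
      have h7 : ‖sx - s‖ ^ 2 ≤ t ^ 2 := by gcongr
      have h8 : 3 / 4 ≤ th ((4 * t)⁻¹ • (x - (q + (s : E d)))) := by
        unfold th
        apply le_max_of_le_left
        rw [norm_smul, norm_inv, Real.norm_eq_abs, abs_of_pos (by positivity), mul_pow, h2]
        have h9 : ((4 * t)⁻¹) ^ 2 * (P.rho q x ^ 2 + ‖sx - s‖ ^ 2) ≤
            ((4 * t)⁻¹) ^ 2 * (2 * t ^ 2) := by
          gcongr; linarith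
        have h10 : ((4 * t)⁻¹) ^ 2 * (2 * t ^ 2) = 1 / 8 := by
          field_simp; norm_num
        linarith
      calc 3 / 4 * Q x ≤ th ((4 * t)⁻¹ • (x - (q + (s : E d)))) * Q x :=
            mul_le_mul_of_nonneg_right h8 (hQ0 x)
        _ = F x s := mul_comm _ _
    have hFx : Integrable (F x) ν := by
      apply Integrable.const_mul
      refine Integrable.of_bound (C := 1) ?_ (Eventually.of_forall fun s => ?_)
      · apply Continuous.aestronglyMeasurable
        apply th_cont.comp; fun_prop
      · rw [Real.norm_eq_abs, abs_of_nonneg (th_nonneg _)]; exact th_le_one _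
    calc 3 / 4 * (t ^ D * v1) * Q x = ∫ s in ball sx t, 3 / 4 * Q x := by
          rw [setIntegral_const, smul_eq_mul]
          have : volume.real (ball sx t) = t ^ D * v1 := by
            rw [measureReal_def, Measure.addHaar_ball_of_pos _ _ ht, ENNReal.toReal_mul,
              ENNReal.toReal_ofReal (by positivity)]
          rw [this]; ring
      _ ≤ ∫ s in ball sx t, F x s := by
          apply setIntegral_mono_on
          · exact integrableOn_const measure_ball_lt_top.ne
          · exact hFx.mono_measure (Measure.restrict_mono hsub le_rfl)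
          · exact measurableSet_ball
          · exact hin
      _ ≤ ∫ s, F x s ∂ν := by
          apply setIntegral_mono_set hFx
          · exact Eventually.of_forall fun s => mul_nonneg (hQ0 x) (th_nonneg _)
          · exact LE.le.eventuallyLE hsub
  have hLOW : 3 / 4 * (t ^ D * v1) * ∫ x in P.Om ∩ (ball q r ∩ {x | P.rho q x < t}), Q x ≤
      ∫ x, (∫ s, F x s ∂ν) ∂μ := by
    rw [← integral_const_mul]
    calc ∫ x in P.Om ∩ (ball q r ∩ {x | P.rho q x < t}), 3 / 4 * (t ^ D * v1) * Q x
        ≤ ∫ x in P.Om ∩ (ball q r ∩ {x | P.rho q x < t}), (∫ s, F x s ∂ν) := by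
          apply setIntegral_mono_on
          · apply Integrable.const_mul
            exact (hQ K hKs hKc).mono_set (htube t)
          · exact (hFi.integral_prod_left).mono_measure (Measure.restrict_mono (htube t) le_rfl)
          · exact htm t
          · intro x hx; exact hlow x hx.2
      _ ≤ ∫ x, (∫ s, F x s ∂ν) ∂μ := by
          apply setIntegral_mono_set hFi.integral_prod_left
          · refine Eventually.of_forall fun x => integral_nonneg fun s => ?_
            exact mul_nonneg (hQ0 x) (th_nonneg _)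
          · exact LE.le.eventuallyLE (htube t)
  have hfinal := (hLOW.trans_eq hswap).trans hUP
  set I := ∫ x in P.Om ∩ (ball q r ∩ {x | P.rho q x < t}), Q x with hI
  have hI2 : I ≤ C1 * t ^ P.rk q := by
    have h1 : (4 * t) ^ d = 4 ^ d * (t ^ P.rk q * t ^ D) := by
      rw [mul_pow, ← pow_add, hDk]
    rw [h1] at hfinal
    have hD0 : 0 < t ^ D := by positivity
    have h2 : 3 / 4 * v1 * I ≤ 4 ^ d * t ^ P.rk q * ((t2 ^ d)⁻¹ * M) * vB := by
      have h3 : t ^ D * (3 / 4 * v1 * I) ≤
          t ^ D * (4 ^ d * t ^ P.rk q * ((t2 ^ d)⁻¹ * M) * vB) := by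
        calc t ^ D * (3 / 4 * v1 * I) = 3 / 4 * (t ^ D * v1) * I := by ring
          _ ≤ _ := hfinal
          _ = _ := by ring
      exact le_of_mul_le_mul_left h3 hD0
    rw [hC1, div_mul_eq_mul_div, le_div_iff₀ hv1pos]
    calc I * v1 = 4 / 3 * (3 / 4 * v1 * I) := by ring
      _ ≤ 4 / 3 * (4 ^ d * t ^ P.rk q * ((t2 ^ d)⁻¹ * M) * vB) := by gcongr
      _ = _ := by ring
  have h4 : 0 ≤ (M / t0 ^ P.rk q + 1) * t ^ P.rk q := by positivity
  nlinarith

end

end Pool.Agent.Lib_helper74.Robin
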