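import Pool.Agent.Lib_helper13.Robin.Geo

/-!
# Robin project, block TU: volume of tubes
-/

namespace Pool.Agent.Lib_helper74.Robin

open MeasureTheory Set Metric Filter Topology
open scoped RealInnerProductSpace ContDiff
open Pool.Agent.Lib_helper13.Robin

noncomputable section

variable {d m : ℕ} (P : PD d m)

/-- orthogonal decomposition is measure preserving -/
theorem mp_dec (K : Submodule ℝ (E d)) :
    MeasurePreserving (fun p : K × Kᗮ => (p.1 : E d) + (p.2 : E d)) volume volume := by
  have h := K.orthogonalDecomposition.symm.measurePreserving.comp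
    (WithLp.volume_preserving_toLp K Kᗮ)
  have e : (fun p : K × Kᗮ => (p.1 : E d) + (p.2 : E d)) =
      K.orthogonalDecomposition.symm ∘ (@WithLp.toLp 2 (K × Kᗮ)) := by
    funext p
    simp
  rw [e]
  exact h

/-- the same, centred at `q` -/
theorem mp_dec' (K : Submodule ℝ (E d)) (q : E d) :
    MeasurePreserving (fun p : K × Kᗮ => q + ((p.1 : E d) + (p.2 : E d))) volume volume := by
  exact (measurePreserving_add_left volume q).comp (mp_dec K)

theorem me_dec' (K : Submodule ℝ (E d)) (q : E d) :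
    MeasurableEmbedding (fun p : K × Kᗮ => q + ((p.1 : E d) + (p.2 : E d))) := by
  have h : (fun p : K × Kᗮ => q + ((p.1 : E d) + (p.2 : E d))) =
      (fun x => q + x) ∘ K.orthogonalDecomposition.symm ∘ (@WithLp.toLp 2 (K × Kᗮ)) := by
    ext p
    simp
  rw [h]
  refine (measurableEmbedding_addLeft q).comp ?_
  refine K.orthogonalDecomposition.symm.toHomeomorph.measurableEmbedding.comp ?_
  exact (MeasurableEquiv.toLp 2 (K × Kᗮ)).measurableEmbedding

theorem proj_add (K : Submodule ℝ (E d)) (p : K × Kᗮ) :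
    K.starProjection ((p.1 : E d) + (p.2 : E d)) = p.1 := by
  rw [map_add, K.starProjection_eq_self_iff.2 p.1.2, K.starProjection_apply_eq_zero_iff.2 p.2.2,
    add_zero]

theorem norm_sq_add (K : Submodule ℝ (E d)) (p : K × Kᗮ) :
    ‖(p.1 : E d) + (p.2 : E d)‖ ^ 2 = ‖p.1‖ ^ 2 + ‖p.2‖ ^ 2 := by
  have h : ⟪(p.1 : E d), (p.2 : E d)⟫ = (0 : ℝ) := p.2.2 _ p.1.2
  have := norm_add_sq_real (p.1 : E d) (p.2 : E d)
  rw [h] at this
  simpa using this

theorem rho_add (q : E d) (p : P.N q × (P.N q)ᗮ) :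
    P.rho q (q + ((p.1 : E d) + (p.2 : E d))) = ‖p.1‖ := by
  unfold PD.rho
  rw [add_sub_cancel_left, proj_add]
  rfl

/-- **TU.** volume of tubes -/
theorem tube_vol {q : E d} (R : ℝ) : ∃ C > 0, ∀ t > 0,
    (volume (ball q R ∩ {x | P.rho q x < t})).toReal ≤ C * t ^ P.rk q := by
  set K := P.N q with hK
  set a := volume (ball (0 : K) 1) with ha
  set b := volume (ball (0 : Kᗮ) R) with hb
  have ha' : a ≠ ⊤ := measure_ball_lt_top.ne
  have hb' : b ≠ ⊤ := measure_ball_lt_top.ne
  refine ⟨a.toReal * b.toReal + 1, by positivity, fun t ht => ?_⟩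
  have h1 : volume (ball q R ∩ {x | P.rho q x < t}) ≤
      volume ((ball (0 : K) t) ×ˢ (ball (0 : Kᗮ) R)) := by
    rw [← (mp_dec' K q).measure_preimage_emb (me_dec' K q)]
    apply measure_mono
    rintro p ⟨h1, h2⟩
    rw [mem_ball, dist_eq_norm, add_sub_cancel_left] at h1
    change P.rho q (q + ((p.1 : E d) + (p.2 : E d))) < t at h2
    rw [rho_add] at h2
    refine ⟨by simpa using h2, ?_⟩
    have h3 := norm_sq_add K p
    have h4 : ‖p.2‖ ≤ ‖(p.1 : E d) + (p.2 : E d)‖ := by
      apply le_of_sq_le_sq _ (norm_nonneg _)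
      rw [h3]; nlinarith [sq_nonneg ‖p.1‖]
    simpa using lt_of_le_of_lt h4 h1
  have h2 : volume ((ball (0 : K) t) ×ˢ (ball (0 : Kᗮ) R)) =
      ENNReal.ofReal (t ^ P.rk q) * a * b := by
    rw [Measure.volume_eq_prod, Measure.prod_prod, Measure.addHaar_ball_of_pos _ _ ht]
    rfl
  rw [h2] at h1
  have h3 : ENNReal.ofReal (t ^ P.rk q) * a * b ≠ ⊤ :=
    ENNReal.mul_ne_top (ENNReal.mul_ne_top ENNReal.ofReal_ne_top ha') hb'
  have h4 := ENNReal.toReal_mono h3 h1
  rw [ENNReal.toReal_mul, ENNReal.toReal_mul, ENNReal.toReal_ofReal (by positivity)] at h4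
  have h5 : 0 < t ^ P.rk q := by positivity
  nlinarith

/-- **TU.** -/
theorem rho_inv_int {q : E d} (hr : 2 ≤ P.rk q) (R : ℝ) :
    IntegrableOn (fun x => (P.rho q x)⁻¹) (ball q R) := by
  set K := P.N q with hK
  have hdim : Module.finrank ℝ K = P.rk q := rfl
  have : Nontrivial K := Module.nontrivial_of_finrank_pos (R := ℝ) (by omega)
  have h1 : Integrable (fun y : K => (Iio R).indicator (fun s : ℝ => s⁻¹) ‖y‖) := by
    rw [integrable_fun_norm_addHaar (volume : Measure K)
      (f := (Iio R).indicator (fun s : ℝ => s⁻¹))]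
    have h2 : IntegrableOn (fun y : ℝ => (Iio R).indicator (fun y => y ^ (P.rk q - 2)) y)
        (Ioi 0) := by
      rw [IntegrableOn, integrable_indicator_iff measurableSet_Iio, IntegrableOn,
        Measure.restrict_restrict measurableSet_Iio, inter_comm, Ioi_inter_Iio]
      exact ((continuous_pow _).continuousOn.integrableOn_Icc (a := (0 : ℝ)) (b := R)).mono_set
        Ioo_subset_Icc_self
    refine h2.congr_fun ?_ measurableSet_Ioi
    intro y hy
    rw [mem_Ioi] at hy
    simp only [smul_eq_mul, hdim]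
    by_cases h : y ∈ Iio R
    · rw [indicator_of_mem h, indicator_of_mem h]
      rw [show P.rk q - 1 = (P.rk q - 2) + 1 by omega, pow_succ, mul_assoc,
        mul_inv_cancel₀ hy.ne', mul_one]
    · rw [indicator_of_notMem h, indicator_of_notMem h, mul_zero]
  have h2 : Integrable (fun s : Kᗮ => (ball (0 : Kᗮ) R).indicator (fun _ => (1 : ℝ)) s) := by
    rw [integrable_indicator_iff measurableSet_ball]
    exact integrableOn_const measure_ball_lt_top.ne
  have h3 := h1.mul_prod h2
  rw [← (mp_dec' K q).integrableOn_comp_preimage (me_dec' K q)]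
  have hms : MeasurableSet ((fun p : K × Kᗮ => q + ((p.1 : E d) + (p.2 : E d))) ⁻¹' ball q R) :=
    (me_dec' K q).measurable measurableSet_ball
  rw [← integrable_indicator_iff hms]
  refine h3.mono ?_ ?_
  · apply Measurable.aestronglyMeasurable
    refine Measurable.indicator ?_ hms
    have : ((fun x => (P.rho q x)⁻¹) ∘ fun p : K × Kᗮ => q + ((p.1 : E d) + (p.2 : E d))) =
        fun p => ‖p.1‖⁻¹ := by
      ext p
      simp only [Function.comp_apply]
      rw [rho_add]
    rw [this]
    fun_prop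
  · refine Eventually.of_forall fun p => ?_
    by_cases hp : p ∈ (fun p : K × Kᗮ => q + ((p.1 : E d) + (p.2 : E d))) ⁻¹' ball q R
    · rw [indicator_of_mem hp]
      simp only [Function.comp_apply]
      rw [rho_add]
      have hp' : ‖(p.1 : E d) + (p.2 : E d)‖ < R := by
        rw [mem_preimage, mem_ball, dist_eq_norm, add_sub_cancel_left] at hp; exact hp
      have h3 := norm_sq_add K p
      have h4 : ‖p.2‖ ≤ ‖(p.1 : E d) + (p.2 : E d)‖ := by
        apply le_of_sq_le_sq _ (norm_nonneg _)
        rw [h3]; nlinarith [sq_nonneg ‖p.1‖]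
      have h5 : ‖p.1‖ ≤ ‖(p.1 : E d) + (p.2 : E d)‖ := by
        apply le_of_sq_le_sq _ (norm_nonneg _)
        rw [h3]; nlinarith [sq_nonneg ‖p.2‖]
      rw [indicator_of_mem (show ‖p.1‖ ∈ Iio R from lt_of_le_of_lt h5 hp'),
        indicator_of_mem (by simpa using lt_of_le_of_lt h4 hp'), mul_one]
    · rw [indicator_of_notMem hp, norm_zero]
      positivity

end

end Pool.Agent.Lib_helper74.Robin
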